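import Mathlib

set_option autoImplicit false

/-!
# The structure `(ℕ_{>0}; x * 2 ^ y)` is not automatic

Let `f (x, y) = x * 2 ^ y`, presented by words over a finite alphabet such that the graph of `f` is
recognized by an automaton with `c` states.  Then the word of `f (x, y)` is at most `c` letters
longer than the longer one of the words of `x` and `y`.  Since `f` is injective on pairs `(x, y)`
with `x` odd, the number `N n` of the elements presented by words of length at most `n` satisfies
`K * N n ≤ N (n + c)` for all large `n`, where `K` is any given number.  For large `K` this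
contradicts the at most exponential growth of the number of words.
-/

namespace Pool.Agent.Results.MP_34afd1_lc.NotAutomatic

open FirstOrder

/-- The convolution of words: the `i`-th letter is the tuple of the `i`-th letters of the words,
where the padding symbol is `none`; the length is the maximal length. -/
def conv {A : Type} {k : ℕ} (w : Fin k → List A) : List (Fin k → Option A) :=
  (List.range (Finset.univ.sup fun j => (w j).length)).map fun i j => (w j)[i]?

/-- A relation between words is automatic if the set of the convolutions of its tuples is a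
regular language. -/
def AutomaticRel {A : Type} {k : ℕ} (R : Set (Fin k → List A)) : Prop :=
  _root_.Language.IsRegular (conv '' R : Set (List (Fin k → Option A)))

/-- A structure `M` for the first-order language `L` is automatic if there are a finite alphabet
`A`, a regular language `D` over `A` and a bijection `φ` from `M` to `D` such that the images of the
graphs of all functions and constants and the images of all relations are automatic. -/
def IsAutomatic (L : FirstOrder.Language.{0, 0}) (M : Type) [L.Structure M] : Prop :=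
  ∃ (A : Type) (_ : Finite A) (D : _root_.Language A) (φ : M ≃ {w : List A // w ∈ D}),
    D.IsRegular ∧
    (∀ (n : ℕ) (f : L.Functions n), AutomaticRel {w : Fin (n + 1) → List A | ∃ v : Fin n → M,
      w = Fin.snoc (fun i => (φ (v i)).1) (φ (FirstOrder.Language.Structure.funMap f v)).1}) ∧
    ∀ (n : ℕ) (r : L.Relations n), AutomaticRel {w : Fin n → List A | ∃ v : Fin n → M,
      FirstOrder.Language.Structure.RelMap r v ∧ w = fun i => (φ (v i)).1}

/-! ### Convolutions -/

theorem filterMap_range {A : Type} (l : List A) (N : ℕ) :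
    (List.range N).filterMap (fun i => l[i]?) = l.take N := by
  induction N with
  | zero => simp
  | succ N ih =>
    rw [List.range_succ, List.filterMap_append, ih, List.take_add_one]
    cases h : l[N]? <;> simp [h]

theorem filterMap_conv {A : Type} {k : ℕ} (w : Fin k → List A) (j : Fin k) :
    (conv w).filterMap (fun l => l j) = w j := by
  unfold conv
  rw [List.filterMap_map]
  change (List.range _).filterMap (fun i => (w j)[i]?) = w j
  rw [filterMap_range, List.take_of_length_le]
  exact Finset.le_sup (f := fun j => (w j).length) (Finset.mem_univ j)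

theorem length_conv {A : Type} {k : ℕ} (w : Fin k → List A) :
    (conv w).length = Finset.univ.sup fun j => (w j).length := by
  simp [conv]

theorem drop_conv {A : Type} {k : ℕ} (w : Fin k → List A) (j : Fin k) (m : ℕ)
    (hj : (w j).length ≤ m) (l : Fin k → Option A) (hl : l ∈ (conv w).drop m) : l j = none := by
  rw [List.mem_iff_getElem] at hl
  obtain ⟨i, hi, rfl⟩ := hl
  rw [List.getElem_drop]
  unfold conv
  rw [List.getElem_map, List.getElem_range]
  exact List.getElem?_eq_none (by omega)

theorem filterMap_eq_nil {A B : Type} (f : A → Option B) (l : List A) (h : ∀ a ∈ l, f a = none) :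
    l.filterMap f = [] := List.filterMap_eq_nil_iff.2 h

/-- If the `j₀`-th word is determined by the others, then it is not much longer. -/
theorem pump {A : Type} {k : ℕ} {σ : Type} [Fintype σ] (M : DFA (Fin k → Option A) σ)
    (R : Set (Fin k → List A)) (hM : M.accepts = conv '' R) (j₀ : Fin k)
    (hR : ∀ w ∈ R, ∀ w' ∈ R, (∀ j, j ≠ j₀ → w j = w' j) → w = w')
    (w : Fin k → List A) (hw : w ∈ R) (m : ℕ) (hm : ∀ j, j ≠ j₀ → (w j).length ≤ m) :
    (w j₀).length ≤ m + Fintype.card σ := by
  by_contra hcon
  push Not at hcon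
  set u := conv w with hu
  have hlen : (w j₀).length ≤ u.length := by
    rw [hu, length_conv]
    exact Finset.le_sup (f := fun j => (w j).length) (Finset.mem_univ j₀)
  have hacc : u ∈ M.accepts := by
    rw [hM]
    exact ⟨w, hw, rfl⟩
  have hdrop : Fintype.card σ ≤ (u.drop m).length := by
    rw [List.length_drop]
    omega
  obtain ⟨q, a, b, c, habc, -, hb, h1, h2, h3⟩ :=
    M.evalFrom_split (s := M.evalFrom M.start (u.take m)) hdrop rfl
  have hacc' : u.take m ++ a ++ c ∈ M.accepts := by
    change M.evalFrom M.start (u.take m ++ a ++ c) ∈ M.accept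
    rw [M.evalFrom_of_append, M.evalFrom_of_append, h1, h3, ← M.evalFrom_of_append,
      List.take_append_drop]
    exact hacc
  rw [hM] at hacc'
  obtain ⟨w', hw', he⟩ := hacc'
  have heq : w = w' := by
    apply hR w hw w' hw'
    intro j hj
    rw [← filterMap_conv w j, ← filterMap_conv w' j, he, ← hu]
    have hb' : b.filterMap (fun l => l j) = [] := by
      apply filterMap_eq_nil
      intro l hl
      apply drop_conv w j m (hm j hj) l
      rw [← hu, habc]
      simp [hl]
    conv_lhs => rw [← List.take_append_drop m u, habc]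
    simp only [List.filterMap_append, hb', List.nil_append, List.append_assoc]
  rw [← heq, ← hu] at he
  have hl1 := congrArg List.length he
  have hl2 := congrArg List.length habc
  simp only [List.length_append, List.length_take, List.length_drop] at hl1 hl2
  have hb2 : 0 < b.length := List.length_pos_iff.2 hb
  omega

/-! ### The growth argument -/

theorem finite_short {M A : Type} [Finite A] (φ : M → List A) (hφ : Function.Injective φ) (n : ℕ) :
    Finite {x : M // (φ x).length ≤ n} := by
  have h := List.finite_length_le A n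
  have h2 : Finite {l : List A // l.length ≤ n} := h
  exact Finite.of_injective (fun x : {x : M // (φ x).length ≤ n} =>
    (⟨φ x.1, x.2⟩ : {l : List A // l.length ≤ n})) (by
      intro x y hxy
      apply Subtype.ext
      exact hφ (congrArg Subtype.val hxy))

theorem card_short {M A : Type} [Finite A] (φ : M → List A) (hφ : Function.Injective φ) (n : ℕ) :
    Nat.card {x : M // (φ x).length ≤ n} ≤ (Nat.card A + 1) ^ n := by
  have h1 : (Nat.card A + 1) ^ n = Nat.card (Fin n → Option A) := by
    rw [Nat.card_fun, Finite.card_option, Nat.card_fin]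
  rw [h1]
  apply Nat.card_le_card_of_injective (fun (x : {x : M // (φ x).length ≤ n}) (i : Fin n) =>
    (φ x.1)[i.1]?)
  intro x y hxy
  apply Subtype.ext
  apply hφ
  apply List.ext_getElem?
  intro i
  by_cases hi : i < n
  · exact congrFun hxy ⟨i, hi⟩
  · rw [List.getElem?_eq_none (by have := x.2; omega), List.getElem?_eq_none (by have := y.2; omega)]

/-- A function which makes words longer by at most a constant cannot be injective on `O × M` with an
infinite set `O`. -/
theorem growth {M A : Type} [Finite A] (φ : M → List A) (hφ : Function.Injective φ)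
    (f : M → M → M) (O : Set M) (hO : O.Infinite)
    (hinj : ∀ x ∈ O, ∀ x' ∈ O, ∀ y y', f x y = f x' y' → x = x' ∧ y = y') (c : ℕ)
    (hc : ∀ x y, (φ (f x y)).length ≤ max (φ x).length (φ y).length + c) : False := by
  classical
  set B := Nat.card A + 1 with hB
  set N : ℕ → ℕ := fun n => Nat.card {x : M // (φ x).length ≤ n} with hN
  obtain ⟨F, hFO, hFc⟩ := hO.exists_subset_card_eq (2 * B ^ c)
  set n₀ := F.sup (fun x => (φ x).length) with hn₀
  have hF : ∀ x ∈ F, (φ x).length ≤ n₀ := fun x hx => Finset.le_sup (f := fun x => (φ x).length) hx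
  have hpos : 0 < 2 * B ^ c := by positivity
  have hstep : ∀ n, n₀ ≤ n → 2 * B ^ c * N n ≤ N (n + c) := by
    intro n hn
    have h1 : 2 * B ^ c * N n = Nat.card (F × {x : M // (φ x).length ≤ n}) := by
      rw [Nat.card_prod, Nat.card_eq_fintype_card, Fintype.card_coe, hFc]
    rw [h1]
    have _ := finite_short φ hφ (n + c)
    apply Nat.card_le_card_of_injective
      (fun (p : F × {x : M // (φ x).length ≤ n}) =>
        (⟨f p.1.1 p.2.1, by
          have h2 := hc p.1.1 p.2.1
          have h3 := hF p.1.1 p.1.2
          have h4 := p.2.2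
          have h5 : max (φ p.1.1).length (φ p.2.1).length ≤ n := max_le (h3.trans hn) h4
          omega⟩ : {x : M // (φ x).length ≤ n + c}))
    rintro ⟨⟨x, hx⟩, ⟨y, hy⟩⟩ ⟨⟨x', hx'⟩, ⟨y', hy'⟩⟩ h
    obtain ⟨h1, h2⟩ := hinj x (hFO hx) x' (hFO hx') y y' (congrArg Subtype.val h)
    subst h1 h2
    rfl
  have hN₀ : 1 ≤ N n₀ := by
    have hne : F.Nonempty := by
      rw [← Finset.card_pos, hFc]
      exact hpos
    obtain ⟨x, hx⟩ := hne
    have _ := finite_short φ hφ n₀
    have : Nonempty {x : M // (φ x).length ≤ n₀} := ⟨⟨x, hF x hx⟩⟩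
    exact Nat.card_pos
  have hind : ∀ j, (2 * B ^ c) ^ j ≤ N (n₀ + j * c) := by
    intro j
    induction j with
    | zero => simpa using hN₀
    | succ j ih =>
      have h1 := hstep (n₀ + j * c) (by omega)
      have h2 : n₀ + j * c + c = n₀ + (j + 1) * c := by ring
      rw [h2] at h1
      calc (2 * B ^ c) ^ (j + 1) = 2 * B ^ c * (2 * B ^ c) ^ j := by ring
        _ ≤ 2 * B ^ c * N (n₀ + j * c) := Nat.mul_le_mul_left _ ih
        _ ≤ _ := h1
  have hfin : ∀ j, 2 ^ j ≤ B ^ n₀ := by
    intro j
    have h1 := (hind j).trans (card_short φ hφ (n₀ + j * c))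
    rw [← hB, mul_pow, pow_add, mul_comm j c, pow_mul] at h1
    exact Nat.le_of_mul_le_mul_right h1 (by positivity)
  have h1 := hfin (B ^ n₀)
  have h2 := Nat.lt_two_pow_self (n := B ^ n₀)
  omega

/-! ### The structures -/

/-- The language with the binary function symbol for `x * 2 ^ y` only. -/
inductive FunE : ℕ → Type
  | mulPow : FunE 2

/-- The language with the binary function symbol for `x * 2 ^ y` only. -/
def LE : FirstOrder.Language.{0, 0} := ⟨FunE, fun _ => Empty⟩

/-- The reduct `⟨ℕ_{>0}; x * 2 ^ y⟩`. -/
instance structE : LE.Structure ℕ+ where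
  funMap := fun f => match f with
    | .mulPow => fun v => v 0 * 2 ^ ((v 1 : ℕ+) : ℕ)
  RelMap := fun r => nomatch r

/-- The function symbols of the language of `Ñ`. -/
inductive FunN : ℕ → Type
  | one : FunN 0
  | add : FunN 2
  | mulPow : FunN 2

/-- The relation symbol of the language of `Ñ`. -/
inductive RelN : ℕ → Type
  | le : RelN 2

/-- The language of `Ñ`. -/
def LN : FirstOrder.Language.{0, 0} := ⟨FunN, RelN⟩

/-- The structure `Ñ = ⟨ℕ_{>0}; +, x * 2 ^ y, ≤, 1⟩`. -/
instance structN : LN.Structure ℕ+ where
  funMap := fun f => match f with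
    | .one => fun _ => 1
    | .add => fun v => v 0 + v 1
    | .mulPow => fun v => v 0 * 2 ^ ((v 1 : ℕ+) : ℕ)
  RelMap := fun r => match r with
    | .le => fun v => v 0 ≤ v 1

theorem inj_aux (x x' y y' : ℕ+) (hx : Odd (x : ℕ)) (hx' : Odd (x' : ℕ))
    (h : x * 2 ^ (y : ℕ) = x' * 2 ^ (y' : ℕ)) : x = x' ∧ y = y' := by
  have h1 : (x : ℕ) * 2 ^ (y : ℕ) = (x' : ℕ) * 2 ^ (y' : ℕ) := by
    have := congrArg (fun z : ℕ+ => (z : ℕ)) h
    simpa using this
  have key : ∀ a b c d : ℕ, Odd a → c < d → a * 2 ^ c = b * 2 ^ d → False := by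
    intro a b c d ha hcd h
    obtain ⟨e, rfl⟩ := Nat.exists_eq_add_of_lt hcd
    have h2 : a * 2 ^ c = (b * 2 ^ (e + 1)) * 2 ^ c := by
      rw [h]
      ring
    have h3 := Nat.eq_of_mul_eq_mul_right (by positivity) h2
    have h4 : Even a := by
      rw [h3, pow_succ, ← mul_assoc]
      exact even_two.mul_left _
    exact (Nat.not_even_iff_odd.2 ha) h4
  rcases lt_trichotomy (y : ℕ) (y' : ℕ) with hlt | heq | hgt
  · exact (key _ _ _ _ hx hlt h1).elim
  · rw [heq] at h1
    have h2 := Nat.eq_of_mul_eq_mul_right (by positivity) h1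
    exact ⟨PNat.eq h2, PNat.eq heq⟩
  · exact (key _ _ _ _ hx' hgt h1.symm).elim

/-- The core of the argument. -/
theorem core {A : Type} [Finite A] (φ : ℕ+ → List A) (hφ : Function.Injective φ)
    (h : AutomaticRel {w : Fin (2 + 1) → List A | ∃ v : Fin 2 → ℕ+,
      w = Fin.snoc (fun i => φ (v i)) (φ (v 0 * 2 ^ ((v 1 : ℕ+) : ℕ)))}) : False := by
  obtain ⟨σ, hσ, M, hM⟩ := h
  refine growth φ hφ (fun x y => x * 2 ^ (y : ℕ)) {x | Odd (x : ℕ)} ?_ ?_ (Fintype.card σ) ?_
  · have h1 : Set.Infinite (Set.range fun n : ℕ => (⟨2 * n + 1, by omega⟩ : ℕ+)) := by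
      apply Set.infinite_range_of_injective
      intro a b hab
      have := congrArg (fun z : ℕ+ => (z : ℕ)) hab
      simp only [PNat.mk_coe] at this
      omega
    refine h1.mono ?_
    rintro _ ⟨n, rfl⟩
    exact ⟨n, rfl⟩
  · intro x hx x' hx' y y' h
    exact inj_aux x x' y y' hx hx' h
  · intro x y
    have h1 := pump M _ hM (Fin.last 2) (by
      rintro w ⟨v, rfl⟩ w' ⟨v', rfl⟩ hww
      have hv : v = v' := by
        funext i
        apply hφ
        have h2 := hww i.castSucc (Fin.castSucc_lt_last i).ne
        rw [Fin.snoc_castSucc, Fin.snoc_castSucc] at h2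
        exact h2
      rw [hv]) _ ⟨![x, y], rfl⟩ (max (φ x).length (φ y).length) (by
      intro j hj
      obtain ⟨i, rfl⟩ := Fin.exists_castSucc_eq.2 hj
      rw [Fin.snoc_castSucc]
      fin_cases i
      · exact le_max_left _ _
      · exact le_max_right _ _)
    rw [Fin.snoc_last] at h1
    exact h1

/-- **Answer to Q1.**  The structure `Ñ = ⟨ℕ_{>0}; +, x * 2 ^ y, ≤, 1⟩` is not automatic; not even
its reduct `⟨ℕ_{>0}; x * 2 ^ y⟩` is automatic. -/
theorem result : ¬ IsAutomatic LN ℕ+ ∧ ¬ IsAutomatic LE ℕ+ := by
  constructor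
  · rintro ⟨A, hA, D, φ, -, hf, -⟩
    exact core (fun x => (φ x).1) (Subtype.val_injective.comp φ.injective) (hf 2 FunN.mulPow)
  · rintro ⟨A, hA, D, φ, -, hf, -⟩
    exact core (fun x => (φ x).1) (Subtype.val_injective.comp φ.injective) (hf 2 FunE.mulPow)

end Pool.Agent.Results.MP_34afd1_lc.NotAutomatic
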